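import Mathlib
import Pool.Agent.Work.MP_9ad55e_co.Hex

/-!
# The Heppes-Lenz question has a negative answer in the plane

Among the coverings of `ℝ^d` by convex bodies of diameter at most `1`, is the lower number of
members per unit volume smallest for a thinnest covering by balls of diameter `1`?  No: in the
plane there is a doubly periodic covering by convex polygons of diameter at most `1`, twelve
translation classes (four pentagons, four hexagons, four heptagons) per period rectangle
`(311/125) × (791/250)`, which has `375000/246001 = 1.52438...` members per unit area, while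
every covering by discs of diameter `1` has at least `8/(3√3) = 1.53960...` (Kershner), with
equality for the hexagonal lattice covering.
-/

set_option autoImplicit false

open MeasureTheory Filter Set
open scoped ENNReal Topology

noncomputable section

namespace Pool.Agent.Results.MP_9ad55e_co.TwelveCells

/-- `f(C, r)`: the number of members of the covering `C` contained in the closed ball `B_r` of
radius `r` centred at the origin, per unit volume of `B_r` (possibly `∞`). -/
def f {d : ℕ} (C : Set (Set (EuclideanSpace ℝ (Fin d)))) (r : ℝ) : ℝ≥0∞ :=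
  (({K ∈ C | K ⊆ Metric.closedBall (0 : EuclideanSpace ℝ (Fin d)) r}.encard : ℕ∞) : ℝ≥0∞) /
    volume (Metric.closedBall (0 : EuclideanSpace ℝ (Fin d)) r)

/-- `L(C) = liminf_{r → ∞} f(C, r)`. -/
def L {d : ℕ} (C : Set (Set (EuclideanSpace ℝ (Fin d)))) : ℝ≥0∞ :=
  liminf (fun r : ℝ => f C r) atTop

/-- `C` is a covering of `ℝ^d` by convex bodies (compact convex sets with nonempty interior),
all of diameter at most `1`. -/
def IsCovering (d : ℕ) (C : Set (Set (EuclideanSpace ℝ (Fin d)))) : Prop :=
  (∀ K ∈ C, IsCompact K ∧ Convex ℝ K ∧ (interior K).Nonempty ∧ Metric.diam K ≤ 1) ∧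
    ⋃₀ C = Set.univ

/-- `B` is a covering of `ℝ^d` by (closed) balls of diameter `1`. -/
def IsBallCovering (d : ℕ) (B : Set (Set (EuclideanSpace ℝ (Fin d)))) : Prop :=
  (∀ K ∈ B, ∃ x : EuclideanSpace ℝ (Fin d), K = Metric.closedBall x (1 / 2)) ∧ ⋃₀ B = Set.univ

/-- `m_d`: the least number of balls per unit volume in a covering of `ℝ^d` by balls of
diameter `1` (the infimum of `L`; a minimum for `d = 2`, see `result`). -/
def m (d : ℕ) : ℝ≥0∞ :=
  ⨅ (B : Set (Set (EuclideanSpace ℝ (Fin d)))) (_ : IsBallCovering d B), L B

open Pool.Agent.Work.MP_9ad55e_co Pool.Agent.Work.MP_9ad55e_co.Hex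

universe u

/-- **Q1 is false, in the plane.**
* First clause: the negation of Q1 as it is posed.
* Second clause: `m_2 = 8 / (3 √3)` and a thinnest covering by discs of diameter `1` exists.
* Third clause: one covering `C` of the plane by convex bodies of diameter at most `1` with
  `L(C) < m_2`.  It remains a counterexample in every other reading: even the upper number per
  unit area of its members that only MEET the ball of radius `r` about an arbitrary point `x` is
  at most `375000/246001`, while every family `i ↦ B(c i, 1/2)` of discs of diameter `1` covering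
  the plane (repetitions allowed) has lower number per unit area of discs CONTAINED in the ball
  of radius `r` about `x` at least `8 / (3 √3)`, which is larger. -/
theorem result :
    (¬ ∀ d : ℕ, 1 ≤ d → ∀ C : Set (Set (EuclideanSpace ℝ (Fin d))), IsCovering d C → m d ≤ L C) ∧
    (m 2 = ENNReal.ofReal (8 / (3 * √3)) ∧
      ∃ B : Set (Set (EuclideanSpace ℝ (Fin 2))), IsBallCovering 2 B ∧ L B = m 2) ∧
    ∃ C : Set (Set (EuclideanSpace ℝ (Fin 2))), IsCovering 2 C ∧ L C < m 2 ∧
      (375000 / 246001 : ℝ) < 8 / (3 * √3) ∧
      ∀ x : EuclideanSpace ℝ (Fin 2),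
        limsup (fun r : ℝ =>
            (({K ∈ C | (K ∩ Metric.closedBall x r).Nonempty}.encard : ℕ∞) : ℝ≥0∞) /
              volume (Metric.closedBall x r)) atTop ≤ ENNReal.ofReal (375000 / 246001) ∧
        ∀ (ι : Type u) (c : ι → EuclideanSpace ℝ (Fin 2)),
          (⋃ i, Metric.closedBall (c i) (1 / 2)) = Set.univ →
          ENNReal.ofReal (8 / (3 * √3)) ≤ liminf (fun r : ℝ =>
            (({i | Metric.closedBall (c i) (1 / 2) ⊆ Metric.closedBall x r}.encard : ℕ∞) : ℝ≥0∞) /
              volume (Metric.closedBall x r)) atTop := by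
  have hlow : ∀ B : Set (Set (EuclideanSpace ℝ (Fin 2))), IsBallCovering 2 B →
      ENNReal.ofReal (8 / (3 * √3)) ≤ L B := fun B hB => liminf_balls hB.1 hB.2
  have hHH : L HH ≤ ENNReal.ofReal (8 / (3 * √3)) := liminf_HH
  have hm : m 2 = ENNReal.ofReal (8 / (3 * √3)) := by
    refine le_antisymm ?_ ?_
    · exact (iInf₂_le HH HH_cov).trans hHH
    · exact le_iInf₂ hlow
  have hCC : L CC < m 2 := by
    rw [hm]
    exact lt_of_le_of_lt liminf_CC numeric
  refine ⟨?_, ⟨hm, HH, HH_cov, ?_⟩, CC, CC_cov, hCC, numeric2, fun x => ⟨limsup_meet x, ?_⟩⟩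
  · intro H
    exact absurd (H 2 (by norm_num) CC CC_cov) (not_le.2 hCC)
  · rw [hm]
    exact le_antisymm hHH (hlow HH HH_cov)
  · intro ι c hcov
    exact family_ge c hcov x

end Pool.Agent.Results.MP_9ad55e_co.TwelveCells
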